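import Pool.Agent.H64.Zipper

namespace Pool.Agent.Results.MP_2b4a1d_al.X3NeZero

open Pool.Agent.H64.ZipperDefs

theorem result : {n : ℕ | 3 ≤ n ∧ (relIdeal n).ringCon.mk' (X n 3) = (0 : Z n)} = ∅ := by
  ext n
  simp only [Set.mem_setOf_eq, Set.mem_empty_iff_false, iff_false, not_and]
  exact fun hn => Pool.Agent.H64.Zipper.main n hn

end Pool.Agent.Results.MP_2b4a1d_al.X3NeZero
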